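import Mathlib
import Pool.Agent.Lib_helper76.LD.Defs2

/-!
Block A of the project LD (part 2): iterated differences, the top form, restriction to subspaces.
-/

set_option autoImplicit false

namespace Pool.Agent.Lib_helper76.LD

open Finset

theorem a_pair {V : Type*} [AddCommGroup V] {d : ℕ} (f : V → ZMod 2) (h : Fin d → V) (x : V)
    (i : Fin d) : der f h x = ∑ S ∈ (univ.erase i).powerset,
      (f (x + ∑ j ∈ S, h j) + f (x + ∑ j ∈ S, h j + h i)) := by
  classical
  unfold der
  have h1 : (univ : Finset (Finset (Fin d))) = (insert i (univ.erase i)).powerset := by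
    rw [Finset.insert_erase (mem_univ i), Finset.powerset_univ]
  rw [h1, Finset.sum_powerset_insert (Finset.notMem_erase i _), ← Finset.sum_add_distrib]
  refine Finset.sum_congr rfl fun S hS => ?_
  have hi : i ∉ S := fun hh => Finset.notMem_erase i univ (Finset.mem_powerset.1 hS hh)
  rw [Finset.sum_insert hi, add_comm (h i), add_assoc]

theorem a_der_zero {V : Type*} [AddCommGroup V] (f : V → ZMod 2) (h : Fin 0 → V) (x : V) :
    der f h x = f x := by
  unfold der
  rw [Fintype.sum_eq_single (∅ : Finset (Fin 0))]
  · simp
  · intro S hS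
    exact absurd (Finset.eq_empty_of_isEmpty S) hS

theorem a_der_succ {V : Type*} [AddCommGroup V] {d : ℕ} (f : V → ZMod 2) (h : Fin (d + 1) → V)
    (x : V) : der f h x = der (fun x => f (x + h 0) + f x) (fun i => h i.succ) x := by
  classical
  rw [a_pair f h x 0]
  unfold der
  symm
  refine Finset.sum_bij' (fun S _ => S.map (Fin.succEmb d))
    (fun S _ => S.preimage Fin.succ (Fin.succ_injective d).injOn) ?_ ?_ ?_ ?_ ?_
  · intro S _
    rw [Finset.mem_powerset]
    intro j hj
    rw [Finset.mem_map] at hj
    obtain ⟨k, _, rfl⟩ := hj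
    exact Finset.mem_erase.2 ⟨Fin.succ_ne_zero k, mem_univ _⟩
  · intro S _
    exact mem_univ _
  · intro S _
    ext j
    simp
  · intro S hS
    ext j
    rw [Finset.mem_map]
    constructor
    · rintro ⟨k, hk, rfl⟩
      exact Finset.mem_preimage.1 hk
    · intro hj
      have h0 : j ≠ 0 := (Finset.mem_erase.1 (Finset.mem_powerset.1 hS hj)).1
      obtain ⟨k, rfl⟩ := Fin.exists_succ_eq.2 h0
      exact ⟨k, Finset.mem_preimage.2 hj, rfl⟩
  · intro S _
    rw [Finset.sum_map]
    simp only [Fin.coe_succEmb]
    rw [add_comm]

theorem a_der_add {V : Type*} [AddCommGroup V] {d : ℕ} (f : V → ZMod 2) (h : Fin d → V)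
    (b x : V) : der (fun x => f (x + b) + f x) h x = der f h (x + b) + der f h x := by
  unfold der
  rw [← Finset.sum_add_distrib]
  refine Finset.sum_congr rfl fun S _ => ?_
  simp only [add_right_comm x _ b]

/-- Block A. `LowDeg d` means that all iterated differences of order `d+1` vanish. -/
theorem lowDeg_iff_der_pr {V : Type*} [AddCommGroup V] (d : ℕ) (f : V → ZMod 2) :
    LowDeg d f ↔ ∀ (h : Fin (d + 1) → V) (x : V), der f h x = 0 := by
  induction d generalizing f with
  | zero =>
    constructor
    · intro hf h x
      rw [a_der_succ, a_der_zero]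
      rw [hf (x + h 0) x]
      exact z2_add_self _
    · intro H x y
      have h1 := H (fun _ => x - y) y
      rw [a_der_succ, a_der_zero] at h1
      simp only [add_sub_cancel] at h1
      have h2 := z2_add_self (f y)
      linear_combination h1 - h2
  | succ d ih =>
    constructor
    · intro hf h x
      rw [a_der_succ]
      exact (ih _).1 (hf (h 0)) _ _
    · intro H a
      refine (ih _).2 fun h x => ?_
      have h1 := H (Fin.cons a h) x
      rw [a_der_succ] at h1
      simpa using h1

theorem a_indep {V : Type*} [AddCommGroup V] {d : ℕ} {f : V → ZMod 2} (hf : LowDeg d f)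
    (h : Fin d → V) (x y : V) : der f h x = der f h y := by
  have h1 := (lowDeg_iff_der_pr d f).1 hf (Fin.cons (x - y) h) y
  rw [a_der_succ] at h1
  simp only [Fin.cons_zero, Fin.cons_succ] at h1
  rw [a_der_add, add_sub_cancel] at h1
  have h2 := z2_add_self (der f h y)
  linear_combination h1 - h2

theorem a_update {V : Type*} [AddCommGroup V] {d : ℕ} (f : V → ZMod 2) (h : Fin d → V)
    (i : Fin d) (a x : V) : der f (Function.update h i a) x = ∑ S ∈ (univ.erase i).powerset,
      (f (x + ∑ j ∈ S, h j) + f (x + ∑ j ∈ S, h j + a)) := by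
  classical
  rw [a_pair _ _ _ i]
  refine Finset.sum_congr rfl fun S hS => ?_
  have h1 : ∑ j ∈ S, Function.update h i a j = ∑ j ∈ S, h j := by
    refine Finset.sum_congr rfl fun j hj => ?_
    have hji : j ≠ i := fun hh => by
      subst hh
      exact Finset.notMem_erase j univ (Finset.mem_powerset.1 hS hj)
    exact Function.update_of_ne hji _ _
  rw [h1, Function.update_self]

theorem a_update_add {V : Type*} [AddCommGroup V] {d : ℕ} (f : V → ZMod 2) (h : Fin d → V)
    (i : Fin d) (a b x : V) : der f (Function.update h i (a + b)) x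
      = der f (Function.update h i a) x + der f (Function.update h i b) (x + a) := by
  rw [a_update, a_update, a_update, ← Finset.sum_add_distrib]
  refine Finset.sum_congr rfl fun S _ => ?_
  have e1 : x + a + ∑ j ∈ S, h j = x + ∑ j ∈ S, h j + a := add_right_comm _ _ _
  rw [e1, ← add_assoc (x + ∑ j ∈ S, h j) a b]
  have h2 := z2_add_self (f (x + ∑ j ∈ S, h j + a))
  linear_combination -h2

/-- Block A. The top form. -/
theorem exists_form_pr {V : Type*} [AddCommGroup V] [Module (ZMod 2) V] (d : ℕ) (f : V → ZMod 2)
    (hf : LowDeg d f) :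
    ∃ T : MultilinearMap (ZMod 2) (fun _ : Fin d => V) (ZMod 2), ∀ h x, T h = der f h x := by
  classical
  have hadd : ∀ (h : Fin d → V) (i : Fin d) (a b : V),
      der f (Function.update h i (a + b)) 0
        = der f (Function.update h i a) 0 + der f (Function.update h i b) 0 := by
    intro h i a b
    rw [a_update_add, a_indep hf (Function.update h i b) (0 + a) 0]
  have hzero : ∀ (h : Fin d → V) (i : Fin d), der f (Function.update h i 0) 0 = 0 := by
    intro h i
    rw [a_update]
    refine Finset.sum_eq_zero fun S _ => ?_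
    rw [add_zero]
    exact z2_add_self _
  refine ⟨{ toFun := fun h => der f h 0
            map_update_add' := ?_
            map_update_smul' := ?_ }, fun h x => a_indep hf h 0 x⟩
  · intro inst h i a b
    have : inst = instDecidableEqFin d := Subsingleton.elim _ _
    subst this
    exact hadd h i a b
  · intro inst h i c a
    have : inst = instDecidableEqFin d := Subsingleton.elim _ _
    subst this
    rcases eq_or_ne c 0 with hc | hc
    · subst hc
      rw [zero_smul, zero_smul]
      exact hzero h i
    · rw [z2_ne_zero hc, one_smul, one_smul]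

/-- Block A. Restriction to the cosets of a subspace on which the top form vanishes. -/
theorem lowDeg_restrict_pr {V : Type*} [AddCommGroup V] [Module (ZMod 2) V] (d : ℕ)
    (f : V → ZMod 2)
    (T : MultilinearMap (ZMod 2) (fun _ : Fin (d + 1) => V) (ZMod 2))
    (hT : ∀ h x, T h = der f h x) (K : Submodule (ZMod 2) V)
    (hK : ∀ h : Fin (d + 1) → V, (∀ i, h i ∈ K) → T h = 0) (x₀ : V) :
    LowDeg d (fun x : K => f (x₀ + x)) := by
  rw [lowDeg_iff_der_pr]
  intro h x
  have h1 := hT (fun i => (h i : V)) (x₀ + x)
  rw [hK _ fun i => (h i).2] at h1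
  rw [h1]
  unfold der
  refine Finset.sum_congr rfl fun S _ => ?_
  push_cast
  rw [add_assoc]

end Pool.Agent.Lib_helper76.LD
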